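import Pool.Agent.K1H49.PL.Gen

/-! Project PL (helper49), piece EXN: extension by one position. -/

namespace Pool.Agent.K1H1.PLG

open Pool.Agent.K1H49.PL

universe u

theorem ext_pt {a N : ℕ} (h : a ≤ N) (E : LN a → Nd) (hE : Pt ndl a E) :
    ∃ E' : LN N → Nd, Pt ndl N E' ∧
      ∀ (η : Nd) (h1 : η.length ≤ a) (h2 : η.length ≤ N), E' ⟨η, h2⟩ = E ⟨η, h1⟩ := by
  refine ⟨fun η => E ⟨η.1.take a, List.length_take_le _ _⟩ ++ η.1.drop a, ?_, ?_⟩
  · rintro ⟨η, hη⟩ ⟨η', hη'⟩ d hd
    obtain ⟨r, hr⟩ := hd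
    have hr' : η' = η ++ d :: r := by
      have : η ++ [d] ++ r = η' := hr
      rw [← this]; simp
    show ((E ⟨η.take a, _⟩ ++ η.drop a) ++ [d]) <+: (E ⟨η'.take a, _⟩ ++ η'.drop a)
    by_cases hl : η.length < a
    · have h1 : η.take a = η := List.take_of_length_le hl.le
      have h2 : η.drop a = [] := List.drop_eq_nil_of_le hl.le
      have h3 : (η ++ [d]) <+: η'.take a := by
        rw [hr', List.take_append, List.take_of_length_le hl.le]
        have : a - η.length = (a - η.length - 1) + 1 := by omega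
        rw [this, List.take_succ_cons]
        exact ⟨r.take (a - η.length - 1), by simp⟩
      have h4 : (E ⟨η, hl.le⟩ ++ [d]) <+: E ⟨η'.take a, List.length_take_le _ _⟩ :=
        hE ⟨η, hl.le⟩ ⟨η'.take a, List.length_take_le _ _⟩ d h3
      have h5 : E ⟨η.take a, List.length_take_le _ _⟩ = E ⟨η, hl.le⟩ := by
        congr 1
        exact Subtype.ext h1
      rw [h5, h2, List.append_nil]
      exact h4.trans (List.prefix_append _ _)
    · have hl' : a ≤ η.length := not_lt.1 hl
      have h1 : η'.take a = η.take a := by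
        rw [hr', List.take_append_of_le_length hl']
      have h2 : η'.drop a = η.drop a ++ d :: r := by
        rw [hr', List.drop_append_of_le_length hl']
      have h5 : E ⟨η'.take a, List.length_take_le _ _⟩ = E ⟨η.take a, List.length_take_le _ _⟩ := by
        congr 1
        exact Subtype.ext h1
      rw [h5, h2]
      exact ⟨r, by simp⟩
  · intro η h1 h2
    show E ⟨η.take a, _⟩ ++ η.drop a = E ⟨η, h1⟩
    have h3 : E ⟨η.take a, List.length_take_le _ _⟩ = E ⟨η, h1⟩ := by
      congr 1
      exact Subtype.ext (List.take_of_length_le h1)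
    rw [h3, List.drop_eq_nil_of_le h1, List.append_nil]

section

variable {I : Type} {lt : Bool → I → I → Prop}

open Classical in
/-- surgery -/
noncomputable def E0p {n : ℕ} (lt : Bool → I → I → Prop) (π : I) (C0 C1 : Nd → I) (E0 : LN n → I)
    (G0 G1 : LN n → Nd) : LN n → I := fun η =>
  if lt false π (E0 η) then C0 (G0 η) else if lt true π (E0 η) then C1 (G1 η) else E0 η

theorem swap_pt (hB : BT lt) (π : I) {C0 C1 : Nd → I} (hC0 : Cpy lt C0) (hC1 : Cpy lt C1)
    (h0 : ∀ ν, lt false π (C0 ν)) (h1 : ∀ ν, lt true π (C1 ν)) {n : ℕ} {E0 : LN n → I}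
    {G0 G1 : LN n → Nd} (hE : Pt lt n E0) (hG0 : Pt ndl n G0) (hG1 : Pt ndl n G1) :
    Pt lt n (E0p lt π C0 C1 E0 G0 G1) := by
  classical
  have hnn : ∀ d, ¬ lt d π π := fun d h => hB.wf.irrefl.irrefl π ⟨d, h⟩
  -- two positions outside and inside
  have hout : ∀ (a b : I) (d e : Bool), ¬ lt false π a → ¬ lt true π a → lt e π b → lt d a b →
      ∀ c, lt e π c → lt d a c := by
    intro a b d e h1 h2 h3 h4 c hc
    rcases hB.lin h4 h3 with h | ⟨e', h⟩ | ⟨e', h⟩
    · subst h
      rw [hB.uniq h4 h3]; exact hc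
    · have h5 := hB.trans h h3
      rw [hB.uniq h4 h5]
      exact hB.trans h hc
    · cases e'
      · exact absurd h h1
      · exact absurd h h2
  intro η η' d hd
  have h := hE η η' d hd
  unfold E0p
  by_cases ha0 : lt false π (E0 η)
  · have hb0 : lt false π (E0 η') := hB.trans ha0 h
    rw [if_pos ha0, if_pos hb0]
    exact hC0 _ _ d (hG0 η η' d hd)
  · by_cases ha1 : lt true π (E0 η)
    · have hb1 : lt true π (E0 η') := hB.trans ha1 h
      have hb0 : ¬ lt false π (E0 η') := fun h' => Bool.false_ne_true (hB.uniq h' hb1)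
      rw [if_neg ha0, if_pos ha1, if_neg hb0, if_pos hb1]
      exact hC1 _ _ d (hG1 η η' d hd)
    · rw [if_neg ha0, if_neg ha1]
      by_cases hb0 : lt false π (E0 η')
      · rw [if_pos hb0]
        exact hout _ _ d false ha0 ha1 hb0 h _ (h0 _)
      · by_cases hb1 : lt true π (E0 η')
        · rw [if_neg hb0, if_pos hb1]
          exact hout _ _ d true ha0 ha1 hb1 h _ (h1 _)
        · rw [if_neg hb0, if_neg hb1]
          exact h

end

section

variable {M : Type u} {X ι K I : Type}

/-- pull back map, condition 1 -/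
def psi1 {n : ℕ} (E0 : LN n → I) (E : K → LN n → Nd) :
    X ⊕ (Option K × LN n × ι) → X ⊕ ((I × ι) ⊕ (K × Nd × ι))
  | Sum.inl a => Sum.inl a
  | Sum.inr (none, η, i) => Sum.inr (Sum.inl (E0 η, i))
  | Sum.inr (some k, η, i) => Sum.inr (Sum.inr (k, E k η, i))

/-- pull back map, condition 2 -/
def psi2 {a : ℕ} {dg : K → ℕ} (E0 : LN a → I) (E : ∀ k, LN (dg k) → Nd) :
    X ⊕ ((Σ k, LN (dgo a dg k)) × ι) → X ⊕ ((I × ι) ⊕ (K × Nd × ι))
  | Sum.inl a => Sum.inl a
  | Sum.inr (⟨none, η⟩, i) => Sum.inr (Sum.inl (E0 η, i))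
  | Sum.inr (⟨some k, η⟩, i) => Sum.inr (Sum.inr (k, E k η, i))

/-- the vector of `w` and `s` -/
def vec (w : I → ι → M) (s : K → Nd → ι → M) : (I × ι) ⊕ (K × Nd × ι) → M :=
  Sum.elim (fun p => w p.1 p.2) (fun p => s p.1 p.2.1 p.2.2)

theorem vec_psi1 {n : ℕ} (x : X → M) (w : I → ι → M) (s : K → Nd → ι → M) (E0 : LN n → I)
    (E : K → LN n → Nd) : Sum.elim x (vec w s) ∘ psi1 E0 E =
      Sum.elim x (fun p : Option K × LN n × ι =>
        p.1.elim (w (E0 p.2.1) p.2.2) (fun k => s k (E k p.2.1) p.2.2)) := by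
  funext z
  rcases z with a | ⟨_ | k, η, i⟩ <;> rfl

theorem vec_psi2 {a : ℕ} {dg : K → ℕ} (x : X → M) (w : I → ι → M) (s : K → Nd → ι → M)
    (E0 : LN a → I) (E : ∀ k, LN (dg k) → Nd) : Sum.elim x (vec w s) ∘ psi2 E0 E =
      tpx x w s E0 E := by
  funext z
  rcases z with a | ⟨⟨_ | k, η⟩, i⟩ <;> rfl

/-- pull back map for the type at the new position -/
def phi {m : ℕ} {dg : K → ℕ} (π : I) : X ⊕ ((Σ k, LN (dgo (m + 1) dg k)) × ι) →
    (X ⊕ (I × ι)) ⊕ ((Σ k, LN (dgo m (dgo m dg) k)) × ι)
  | Sum.inl a => Sum.inl (Sum.inl a)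
  | Sum.inr (⟨none, ⟨[], _⟩⟩, i) => Sum.inl (Sum.inr (π, i))
  | Sum.inr (⟨none, ⟨false :: η, h⟩⟩, i) =>
      Sum.inr (⟨none, ⟨η, Nat.le_of_succ_le_succ h⟩⟩, i)
  | Sum.inr (⟨none, ⟨true :: η, h⟩⟩, i) =>
      Sum.inr (⟨some none, ⟨η, Nat.le_of_succ_le_succ h⟩⟩, i)
  | Sum.inr (⟨some k, η⟩, i) => Sum.inr (⟨some (some k), η⟩, i)

/-- families of patterns -/
def fam3 {m : ℕ} {dg : K → ℕ} (e0 e1 : LN m → Nd) (E : ∀ k, LN (dg k) → Nd) :
    ∀ k, LN (dgo m (dgo m dg) k) → Nd
  | none => e0
  | some none => e1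
  | some (some k) => E k

open Classical in
/-- pull back map, case (i) -/
noncomputable def chi1 (lt : Bool → I → I → Prop) (π : I) {n : ℕ} (E0 : LN n → I) :
    X ⊕ (Option K × LN n × ι) → (X ⊕ (I × ι)) ⊕ (Option (Option K) × LN n × ι)
  | Sum.inl a => Sum.inl (Sum.inl a)
  | Sum.inr (none, η, i) => if lt false π (E0 η) then Sum.inr (none, η, i) else
      if lt true π (E0 η) then Sum.inr (some none, η, i) else Sum.inl (Sum.inr (E0 η, i))
  | Sum.inr (some k, η, i) => Sum.inr (some (some k), η, i)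

open Classical in
/-- pull back map, case (ii) -/
noncomputable def chi2 (lt : Bool → I → I → Prop) (π : I) {a N : ℕ} {dg : K → ℕ} (ha : a ≤ N)
    (hdg : ∀ k, dg k ≤ N) (E0 : LN a → I) :
    X ⊕ ((Σ k, LN (dgo a dg k)) × ι) → (X ⊕ (I × ι)) ⊕ (Option (Option K) × LN N × ι)
  | Sum.inl a => Sum.inl (Sum.inl a)
  | Sum.inr (⟨none, η⟩, i) =>
      if lt false π (E0 η) then Sum.inr (none, ⟨η.1, le_trans η.2 ha⟩, i) else
      if lt true π (E0 η) then Sum.inr (some none, ⟨η.1, le_trans η.2 ha⟩, i) else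
        Sum.inl (Sum.inr (E0 η, i))
  | Sum.inr (⟨some k, η⟩, i) => Sum.inr (some (some k), ⟨η.1, le_trans η.2 (hdg k)⟩, i)

/-- the family `T` -/
def TT (w : I → ι → M) (s : K → Nd → ι → M) (C0 C1 : Nd → I) : Option (Option K) → Nd → ι → M
  | none => fun η => w (C0 η)
  | some none => fun η => w (C1 η)
  | some (some k) => s k

open Classical in
/-- the candidate -/
noncomputable def wc (lt : Bool → I → I → Prop) (π : I) (w : I → ι → M)
    (u : Option (Option K) → Nd → ι → M) (g : I → Nd) : I → ι → M := fun ρ =>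
  if lt false π ρ then u none (g ρ) else if lt true π ρ then u (some none) (g ρ) else w ρ

end

theorem pt_id (n : ℕ) : Pt ndl n (fun η => η.1) := fun _ _ _ h => h

theorem pt_incl {I : Type} {lt : Bool → I → I → Prop} {a N : ℕ} (h : a ≤ N) {E : LN N → I}
    (hE : Pt lt N E) : Pt lt a (fun η => E ⟨η.1, le_trans η.2 h⟩) :=
  fun η η' d hd => hE ⟨η.1, le_trans η.2 h⟩ ⟨η'.1, le_trans η'.2 h⟩ d hd

theorem t_EXN : S_EXN.{u} := by
  classical
  intro M Y hSat _ X ι K I _ _ lt hB x t m dg hPH F hF π hπ hdn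
  obtain ⟨w, s, hR1, hR2⟩ := hF.cons
  obtain ⟨C0, hC0, hπ0⟩ := hB.cp π false
  obtain ⟨C1, hC1, hπ1⟩ := hB.cp π true
  let x' : X ⊕ (I × ι) → M := Sum.elim x (fun p => w p.1 p.2)
  obtain ⟨u, hu1, hu2⟩ := hPH (X ⊕ (I × ι)) x' (TT w s C0 C1)
  let Eid : ∀ k, LN (dgo m (dgo m dg) k) → Nd := fun k η => η.1
  let θ : Set (Set (X ⊕ ((Σ k, LN (dgo (m + 1) dg k)) × ι) → M)) :=
    {S | Y.D S ∧ tpl x' u Eid ∘ phi π ∈ S}
  have hθ : ∀ S ∈ θ, ∀ EE : ∀ k, LN (dgo m (dgo m dg) k) → Nd, (∀ k, Pt ndl _ (EE k)) →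
      tpl x' u EE ∘ phi π ∈ S := by
    intro S hS EE hEE
    exact hu2 {v | v ∘ phi π ∈ S} (Y.pull (phi π) hS.1) Eid EE (fun k => pt_id _) hEE hS.2
  refine ⟨θ, ?_, ?_, ?_, ?_⟩
  · intro q hq q' hq' h
    rcases hq with rfl | hq
    · rcases hq' with rfl | hq'
      · rfl
      · exfalso
        apply hπ q'.2
        have : (π, q'.2) = q' := by
          rw [show π = q'.1 from h]
        rw [this]; exact hq'
    · rcases hq' with rfl | hq'
      · exfalso
        apply hπ q.2
        have : (π, q.2) = q := by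
          rw [show π = q.1 from h.symm]
        rw [this]; exact hq
      · exact hF.fn q hq q' hq' h
  · intro q hq
    rcases hq with rfl | hq
    · exact ⟨_, rfl⟩
    · exact hF.tp q hq
  · intro q hq ρ d h
    rcases hq with rfl | hq
    · obtain ⟨θ', h'⟩ := hdn ρ d h
      exact ⟨θ', Or.inr h'⟩
    · obtain ⟨θ', h'⟩ := hF.dn q hq ρ d h
      exact ⟨θ', Or.inr h'⟩
  · -- saturation
    let Γ : Set (Set (X ⊕ ((I × ι) ⊕ (K × Nd × ι)) → M)) := {Z |
      (∃ (n : ℕ) (S : Set (X ⊕ (Option K × LN n × ι) → M)) (E0 : LN n → I) (E : K → LN n → Nd),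
        Y.D S ∧ HK x t n S ∧ Pt lt n E0 ∧ (∀ k, Pt ndl n (E k)) ∧ Z = {v | v ∘ psi1 E0 E ∈ S}) ∨
      (∃ q ∈ insert (π, θ) F, ∃ S ∈ q.2, ∃ (E0 : LN (m + 1) → I) (E : ∀ k, LN (dg k) → Nd),
        Pt lt (m + 1) E0 ∧ (∀ k, Pt ndl _ (E k)) ∧ E0 (rt (m + 1)) = q.1 ∧
        Z = {v | v ∘ psi2 E0 E ∈ S})}
    have hFD : ∀ q ∈ insert (π, θ) F, ∀ S ∈ q.2, Y.D S := by
      intro q hq S hS
      rcases hq with rfl | hq
      · exact hS.1
      · obtain ⟨v, hv⟩ := hF.tp q hq
        rw [hv] at hS
        exact hS.1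
    have hΓD : ∀ Z ∈ Γ, Y.D Z := by
      intro Z hZ
      rcases hZ with ⟨n, S, E0, E, hS, _, _, _, rfl⟩ | ⟨q, hq, S, hS, E0, E, _, _, _, rfl⟩
      · exact Y.pull _ hS
      · exact Y.pull _ (hFD q hq S hS)
    have key : ∀ Z ∈ Γ, ∃ P : Finset I, ∀ g : I → Nd,
        (∀ a ∈ P, ∀ b ∈ P, ∀ d, lt d a b → (g a ++ [d]) <+: g b) →
        Sum.elim x (vec (wc lt π w u g) (fun k => u (some (some k)))) ∈ Z := by
      intro Z hZ
      rcases hZ with ⟨n, S, E0, E, hS, hHK, hE0, hE, rfl⟩ |
        ⟨q, hq, S, hS, E0, E, hE0, hE, hrt, rfl⟩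
      · -- case (i)
        have : Finite (LN n) := List.finite_length_le Bool n
        have : Fintype (LN n) := Fintype.ofFinite _
        refine ⟨Finset.univ.image E0, fun g hg => ?_⟩
        have hG : Pt ndl n (fun η => g (E0 η)) := fun η η' d hd =>
          hg _ (Finset.mem_image_of_mem _ (Finset.mem_univ _)) _
            (Finset.mem_image_of_mem _ (Finset.mem_univ _)) d (hE0 η η' d hd)
        have h1 : HK x' (TT w s C0 C1) n {v | v ∘ chi1 lt π E0 ∈ S} := by
          intro E'' hE''
          have h2 := hR1 n S hS hHK (E0p lt π C0 C1 E0 (E'' none) (E'' (some none)))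
            (fun k => E'' (some (some k)))
            (swap_pt hB π hC0 hC1 hπ0 hπ1 hE0 (hE'' _) (hE'' _)) (fun k => hE'' _)
          show _ ∘ chi1 lt π E0 ∈ S
          convert h2 using 1
          funext z
          rcases z with a | ⟨_ | k, η, i⟩
          · rfl
          · simp only [Function.comp, chi1, E0p, Sum.elim_inr, Option.elim]
            split_ifs <;> rfl
          · rfl
        have h3 := hu1 n _ (Y.pull (chi1 lt π E0) hS) h1
          (fun o => match o with
            | none => fun η => g (E0 η)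
            | some none => fun η => g (E0 η)
            | some (some k) => E k) (by
              rintro (_ | _ | k)
              · exact hG
              · exact hG
              · exact hE k)
        show _ ∘ psi1 E0 E ∈ S
        rw [vec_psi1]
        have h4 : _ ∘ chi1 lt π E0 ∈ S := h3
        convert h4 using 1
        funext z
        rcases z with a | ⟨_ | k, η, i⟩
        · rfl
        · simp only [Function.comp, chi1, wc, Sum.elim_inr, Option.elim]
          split_ifs <;> rfl
        · rfl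
      · have : Finite (LN (m + 1)) := List.finite_length_le Bool (m + 1)
        have : Fintype (LN (m + 1)) := Fintype.ofFinite _
        refine ⟨Finset.univ.image E0, fun g hg => ?_⟩
        have hG : Pt ndl (m + 1) (fun η => g (E0 η)) := fun η η' d hd =>
          hg _ (Finset.mem_image_of_mem _ (Finset.mem_univ _)) _
            (Finset.mem_image_of_mem _ (Finset.mem_univ _)) d (hE0 η η' d hd)
        show _ ∘ psi2 E0 E ∈ S
        rw [vec_psi2]
        rcases hq with rfl | hq
        · -- case (iii)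
          have hrt' : E0 (rt (m + 1)) = π := hrt
          have hlt : ∀ (d : Bool) (η : Nd) (h : (d :: η).length ≤ m + 1),
              lt d π (E0 ⟨d :: η, h⟩) := by
            intro d η h
            rw [← hrt']
            exact hE0 (rt (m + 1)) ⟨d :: η, h⟩ d ⟨η, rfl⟩
          have hnn : ∀ d, ¬ lt d π π := fun d h =>
            hB.wf.irrefl.irrefl π ⟨d, h⟩
          have h3 := hθ S hS (fam3 (fun η => g (E0 ⟨false :: η.1, Nat.succ_le_succ η.2⟩))
            (fun η => g (E0 ⟨true :: η.1, Nat.succ_le_succ η.2⟩)) E) (by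
              rintro (_ | _ | k)
              · intro η η' d hd
                refine hG _ _ d ?_
                obtain ⟨r, hr⟩ := hd
                exact ⟨r, by
                  show (false :: η.1) ++ [d] ++ r = false :: η'.1
                  rw [← hr]; rfl⟩
              · intro η η' d hd
                refine hG _ _ d ?_
                obtain ⟨r, hr⟩ := hd
                exact ⟨r, by
                  show (true :: η.1) ++ [d] ++ r = true :: η'.1
                  rw [← hr]; rfl⟩
              · exact hE k)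
          convert h3 using 1
          funext z
          rcases z with a | ⟨⟨_ | k, η⟩, i⟩
          · rfl
          · rcases η with ⟨_ | ⟨_ | _, η⟩, h⟩
            · show wc lt π w u g (E0 (rt (m + 1))) i = w π i
              rw [hrt']
              unfold wc
              rw [if_neg (hnn false), if_neg (hnn true)]
            · show wc lt π w u g (E0 ⟨false :: η, h⟩) i = u none (g (E0 ⟨false :: η, h⟩)) i
              unfold wc
              rw [if_pos (hlt false η h)]
            · show wc lt π w u g (E0 ⟨true :: η, h⟩) i = u (some none) (g (E0 ⟨true :: η, h⟩)) i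
              unfold wc
              rw [if_neg (fun h' => Bool.false_ne_true (hB.uniq h' (hlt true η h))),
                if_pos (hlt true η h)]
          · rfl
        · -- case (ii)
          obtain ⟨N0, hN0⟩ := (Set.finite_range dg).bddAbove
          have ha : m + 1 ≤ max (m + 1) N0 := le_max_left _ _
          have hdg : ∀ k, dg k ≤ max (m + 1) N0 := fun k =>
            (hN0 ⟨k, rfl⟩).trans (le_max_right _ _)
          generalize max (m + 1) N0 = N at ha hdg
          have hnc : ∀ d, ¬ lt d π q.1 := fun d h => by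
            obtain ⟨θ', h'⟩ := hF.dn q hq π d h
            exact hπ θ' h'
          have h1 : HK x' (TT w s C0 C1) N {v | v ∘ chi2 lt π ha hdg E0 ∈ S} := by
            intro E'' hE''
            have h2 := hR2 q hq
              (E0p lt π C0 C1 E0 (fun η => E'' none ⟨η.1, le_trans η.2 ha⟩)
                (fun η => E'' (some none) ⟨η.1, le_trans η.2 ha⟩))
              (fun k η => E'' (some (some k)) ⟨η.1, le_trans η.2 (hdg k)⟩)
              (swap_pt hB π hC0 hC1 hπ0 hπ1 hE0 (pt_incl ha (hE'' _)) (pt_incl ha (hE'' _)))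
              (fun k => pt_incl (hdg k) (hE'' _)) (by
                unfold E0p
                rw [hrt, if_neg (hnc false), if_neg (hnc true)]) S hS
            show _ ∘ chi2 lt π ha hdg E0 ∈ S
            convert h2 using 1
            funext z
            rcases z with a | ⟨⟨_ | k, η⟩, i⟩
            · rfl
            · simp only [Function.comp, chi2, E0p, tpx, Sum.elim_inr]
              split_ifs <;> rfl
            · rfl
          obtain ⟨G', hG', hGe⟩ := ext_pt ha (fun η => g (E0 η)) hG
          have hEx : ∀ k, ∃ E' : LN N → Nd, Pt ndl N E' ∧ ∀ (η : Nd) (h1 : η.length ≤ dg k)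
              (h2 : η.length ≤ N), E' ⟨η, h2⟩ = E k ⟨η, h1⟩ := fun k =>
            ext_pt (hdg k) (E k) (hE k)
          choose E' hE' hEe using hEx
          have h3 := hu1 N _ (Y.pull (chi2 lt π ha hdg E0) (hFD q (Or.inr hq) S hS)) h1
            (fun o => match o with
              | none => G'
              | some none => G'
              | some (some k) => E' k) (by
                rintro (_ | _ | k)
                · exact hG'
                · exact hG'
                · exact hE' k)
          have h4 : _ ∘ chi2 lt π ha hdg E0 ∈ S := h3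
          convert h4 using 1
          funext z
          rcases z with a | ⟨⟨_ | k, η⟩, i⟩
          · rfl
          · simp only [Function.comp, chi2, wc, tpx, Sum.elim_inr]
            split_ifs
            · exact congrArg (fun z => u none z i) (hGe η.1 η.2 (le_trans η.2 ha)).symm
            · exact congrArg (fun z => u (some none) z i) (hGe η.1 η.2 (le_trans η.2 ha)).symm
            · rfl
          · exact congrArg (fun z => u (some (some k)) z i)
              (hEe k η.1 η.2 (le_trans η.2 (hdg k))).symm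
    choose! P hP using key
    obtain ⟨v, hv⟩ := hSat X _ x Γ hΓD (by
      intro Δ hΔ
      obtain ⟨g, hg⟩ := hB.fe (Δ.biUnion P)
      refine ⟨vec (wc lt π w u g) (fun k => u (some (some k))), fun S hS => ?_⟩
      exact hP S (hΔ S hS) g fun a ha b hb d h =>
        hg a (Finset.mem_biUnion.2 ⟨S, hS, ha⟩) b (Finset.mem_biUnion.2 ⟨S, hS, hb⟩) d h)
    refine ⟨fun ρ i => v (Sum.inl (ρ, i)), fun k η i => v (Sum.inr (k, η, i)), ?_, ?_⟩
    · intro n S hS hHK E0 E hE0 hE
      have := hv _ (Or.inl ⟨n, S, E0, E, hS, hHK, hE0, hE, rfl⟩)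
      have h5 : Sum.elim x v ∘ psi1 E0 E ∈ S := this
      convert h5 using 1
      funext z
      rcases z with a | ⟨_ | k, η, i⟩ <;> rfl
    · intro q hq E0 E hE0 hE hrt S hS
      have := hv _ (Or.inr ⟨q, hq, S, hS, E0, E, hE0, hE, hrt, rfl⟩)
      have h5 : Sum.elim x v ∘ psi2 E0 E ∈ S := this
      convert h5 using 1
      funext z
      rcases z with a | ⟨⟨_ | k, η⟩, i⟩ <;> rfl

end Pool.Agent.K1H1.PLG
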